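import Pool.Agent.N993.RK.Stm

set_option autoImplicit false

/-!
# Part CARD: `SU₂(5)` has 120 elements
-/

namespace Pool.Agent.N353.RK

open Matrix Finset
open Pool.Agent.N993.RK

section count

variable {k : Type} [Field k] [Fintype k] [DecidableEq k] [CharP k 5]

theorem five : (5 : k) = 0 := by
  have := CharP.cast_eq_zero k 5
  exact_mod_cast this

theorem fourth {y : k} (h : y ^ 4 = 1) : y = 1 ∨ y = 2 ∨ y = 3 ∨ y = 4 := by
  have h5 : (5 : k) = 0 := five
  have h1 : (y - 1) * ((y - 2) * ((y - 3) * (y - 4))) = 0 := by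
    linear_combination h + (-2 * y ^ 3 + 7 * y ^ 2 - 10 * y + 5) * h5
  rcases mul_eq_zero.1 h1 with h2 | h2
  · exact Or.inl (sub_eq_zero.1 h2)
  rcases mul_eq_zero.1 h2 with h3 | h3
  · exact Or.inr (Or.inl (sub_eq_zero.1 h3))
  rcases mul_eq_zero.1 h3 with h4 | h4
  · exact Or.inr (Or.inr (Or.inl (sub_eq_zero.1 h4)))
  · exact Or.inr (Or.inr (Or.inr (sub_eq_zero.1 h4)))

theorem fib_le (r : k) : (univ.filter fun x : k => x ^ 6 = r).card ≤ 6 := by
  have h1 : (univ.filter fun x : k => x ^ 6 = r) ⊆ (Polynomial.nthRoots 6 r).toFinset := by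
    intro x hx
    rw [Multiset.mem_toFinset, Polynomial.mem_nthRoots (by norm_num)]
    exact (mem_filter.1 hx).2
  exact (card_le_card h1).trans ((Multiset.toFinset_card_le _).trans (Polynomial.card_nthRoots 6 r))

theorem pow_six (hk : Fintype.card k = 25) {x : k} (hx : x ≠ 0) :
    x ^ 6 ∈ ({1, 2, 3, 4} : Finset k) := by
  have h1 : (x ^ 6) ^ 4 = 1 := by
    have h2 := FiniteField.pow_card_sub_one_eq_one x hx
    rw [hk] at h2
    rw [← pow_mul]
    exact h2
  simp only [mem_insert, mem_singleton]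
  exact fourth h1

theorem fib_eq (hk : Fintype.card k = 25) {r : k} (hr : r ∈ ({1, 2, 3, 4} : Finset k)) :
    (univ.filter fun x : k => x ^ 6 = r).card = 6 := by
  have h1 : (univ.filter fun x : k => x ≠ 0).card = 24 := by
    rw [filter_ne', card_erase_of_mem (mem_univ _), card_univ, hk]
  have h2 := card_eq_sum_card_fiberwise (s := univ.filter fun x : k => x ≠ 0)
    (t := ({1, 2, 3, 4} : Finset k)) (f := fun x => x ^ 6)
    (fun x hx => pow_six hk (mem_filter.1 hx).2)
  rw [h1] at h2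
  by_contra hne
  have h3 : (univ.filter fun x : k => x ^ 6 = r).card < 6 := lt_of_le_of_ne (fib_le r) hne
  have h4 : ∑ b ∈ ({1, 2, 3, 4} : Finset k),
      ((univ.filter fun x : k => x ≠ 0).filter fun x => x ^ 6 = b).card <
      ∑ _b ∈ ({1, 2, 3, 4} : Finset k), 6 := by
    apply sum_lt_sum
    · intro b _
      refine le_trans (card_le_card ?_) (fib_le b)
      intro x hx
      simp only [mem_filter, mem_univ, true_and] at hx ⊢
      exact hx.2
    · refine ⟨r, hr, lt_of_le_of_lt (card_le_card ?_) h3⟩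
      intro x hx
      simp only [mem_filter, mem_univ, true_and] at hx ⊢
      exact hx.2
  have h5 : ({1, 2, 3, 4} : Finset k).card ≤ 4 := card_le_four
  rw [sum_const, smul_eq_mul, ← h2] at h4
  omega

theorem fib_zero : (univ.filter fun x : k => x ^ 6 = 0).card = 1 := by
  have h1 : (univ.filter fun x : k => x ^ 6 = 0) = {0} := by
    ext x
    simp
  rw [h1, card_singleton]

theorem count (hk : Fintype.card k = 25) :
    (univ.filter fun p : k × k => p.1 ^ 6 + p.2 ^ 6 = 1).card = 120 := by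
  have h5 : (5 : k) = 0 := five
  have h1 : (univ.filter fun p : k × k => p.1 ^ 6 + p.2 ^ 6 = 1).card =
      ∑ b : k, (univ.filter fun c : k => c ^ 6 = 1 - b ^ 6).card := by
    simp only [card_filter]
    rw [Fintype.sum_prod_type]
    refine sum_congr rfl fun b _ => sum_congr rfl fun c _ => ?_
    have h2 : b ^ 6 + c ^ 6 = 1 ↔ c ^ 6 = 1 - b ^ 6 := by
      constructor
      · intro h
        linear_combination h
      · intro h
        linear_combination h
    simp only [h2]
  have h2 : ∀ b : k, (univ.filter fun c : k => c ^ 6 = 1 - b ^ 6).card =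
      if b ^ 6 = 1 then 1 else 6 := by
    intro b
    by_cases hb : b ^ 6 = 1
    · rw [if_pos hb, hb, sub_self]
      exact fib_zero
    · rw [if_neg hb]
      apply fib_eq hk
      by_cases hb0 : b = 0
      · subst hb0
        simp
      · have h3 := pow_six hk hb0
        simp only [mem_insert, mem_singleton] at h3 ⊢
        rcases h3 with h3 | h3 | h3 | h3
        · exact absurd h3 hb
        · right; right; right
          rw [h3]
          linear_combination (-1) * h5
        · right; right; left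
          rw [h3]
          linear_combination (-1) * h5
        · right; left
          rw [h3]
          linear_combination (-1) * h5
  rw [h1]
  simp only [h2]
  rw [sum_ite, sum_const, sum_const, fib_eq hk (by simp)]
  have h3 : (univ.filter fun x : k => ¬ x ^ 6 = 1).card = 19 := by
    have h4 := card_filter_add_card_filter_not (s := (univ : Finset k)) (fun x => x ^ 6 = 1)
    rw [fib_eq hk (by simp), card_univ, hk] at h4
    omega
  rw [h3]
  norm_num

end count

theorem sys {k : Type} [Field k] {x y z w : k} (h1 : x * w - z * y = 1)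
    (h2 : x ^ 5 * z + y ^ 5 * w = 0) (h3 : x ^ 5 * x + y ^ 5 * y = 1) :
    z = -y ^ 5 ∧ w = x ^ 5 ∧ x ^ 6 + y ^ 6 = 1 := by
  refine ⟨?_, ?_, ?_⟩
  · linear_combination (-y ^ 5) * h1 + x * h2 - z * h3
  · linear_combination x ^ 5 * h1 + y * h2 - w * h3
  · linear_combination h3

section mat

variable {k : Type} [Field k] [CharP k 5]

theorem entries {i a b : Fin 3} (hi : (i = 0 ∧ a = 1 ∧ b = 2) ∨ (i = 1 ∧ a = 0 ∧ b = 2) ∨
    (i = 2 ∧ a = 0 ∧ b = 1)) (A : M3 k) (hdet : A.det = 1) (hU : A * ct 1 A = 1)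
    (hcol : A *ᵥ (Pi.single i 1) = Pi.single i 1) :
    (A i i = 1 ∧ A a i = 0 ∧ A b i = 0 ∧ A i a = 0 ∧ A i b = 0) ∧
      A a b = -(A b a) ^ 5 ∧ A b b = (A a a) ^ 5 ∧ (A a a) ^ 6 + (A b a) ^ 6 = 1 := by
  have hU' : ct 1 A * A = 1 := mul_eq_one_comm.1 hU
  have hc : ∀ j, A j i = (Pi.single i 1 : Fin 3 → k) j := by
    intro j
    have h1 := congrFun hcol j
    rwa [Matrix.mulVec_single_one] at h1
  have he : ∀ p q, A 0 p ^ 5 * A 0 q + A 1 p ^ 5 * A 1 q + A 2 p ^ 5 * A 2 q =
      (1 : M3 k) p q := by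
    intro p q
    have h1 := congrFun (congrFun hU' p) q
    rw [Matrix.mul_apply, Fin.sum_univ_three, ct_apply, ct_apply, ct_apply] at h1
    simpa using h1
  rw [Matrix.det_fin_three] at hdet
  rcases hi with ⟨rfl, rfl, rfl⟩ | ⟨rfl, rfl, rfl⟩ | ⟨rfl, rfl, rfl⟩
  · have c0 : A 0 0 = 1 := by rw [hc 0]; rfl
    have c1 : A 1 0 = 0 := by rw [hc 1]; rfl
    have c2 : A 2 0 = 0 := by rw [hc 2]; rfl
    have r1 : A 0 1 = 0 := by
      have := he 0 1
      simpa [c0, c1, c2] using this
    have r2 : A 0 2 = 0 := by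
      have := he 0 2
      simpa [c0, c1, c2] using this
    refine ⟨⟨c0, c1, c2, r1, r2⟩, ?_⟩
    apply sys
    · rw [c0, c1, c2, r1, r2] at hdet
      linear_combination hdet
    · have := he 1 2
      simpa [r1, r2] using this
    · have := he 1 1
      simpa [r1, r2] using this
  · have c0 : A 1 1 = 1 := by rw [hc 1]; rfl
    have c1 : A 0 1 = 0 := by rw [hc 0]; rfl
    have c2 : A 2 1 = 0 := by rw [hc 2]; rfl
    have r1 : A 1 0 = 0 := by
      have := he 1 0
      simpa [c0, c1, c2] using this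
    have r2 : A 1 2 = 0 := by
      have := he 1 2
      simpa [c0, c1, c2] using this
    refine ⟨⟨c0, c1, c2, r1, r2⟩, ?_⟩
    apply sys
    · rw [c0, c1, c2, r1, r2] at hdet
      linear_combination hdet
    · have := he 0 2
      simpa [r1, r2] using this
    · have := he 0 0
      simpa [r1, r2] using this
  · have c0 : A 2 2 = 1 := by rw [hc 2]; rfl
    have c1 : A 0 2 = 0 := by rw [hc 0]; rfl
    have c2 : A 1 2 = 0 := by rw [hc 1]; rfl
    have r1 : A 2 0 = 0 := by
      have := he 2 0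
      simpa [c0, c1, c2] using this
    have r2 : A 2 1 = 0 := by
      have := he 2 1
      simpa [c0, c1, c2] using this
    refine ⟨⟨c0, c1, c2, r1, r2⟩, ?_⟩
    apply sys
    · rw [c0, c1, c2, r1, r2] at hdet
      linear_combination hdet
    · have := he 0 1
      simpa [r1, r2] using this
    · have := he 0 0
      simpa [r1, r2] using this

theorem exists_mat [Fintype k] (hk : Fintype.card k = 25) {i a b : Fin 3}
    (hi : (i = 0 ∧ a = 1 ∧ b = 2) ∨ (i = 1 ∧ a = 0 ∧ b = 2) ∨ (i = 2 ∧ a = 0 ∧ b = 1)) {x y : k}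
    (h : x ^ 6 + y ^ 6 = 1) : ∃ A : M3 k, A.det = 1 ∧ A * ct 1 A = 1 ∧
      A *ᵥ (Pi.single i 1) = Pi.single i 1 ∧ A a a = x ∧ A b a = y := by
  have hx : (x ^ 5) ^ 5 = x := by
    rw [← pow_mul]
    have := FiniteField.pow_card x
    rwa [hk] at this
  have hy : (y ^ 5) ^ 5 = y := by
    rw [← pow_mul]
    have := FiniteField.pow_card y
    rwa [hk] at this
  have hy' : (-y ^ 5) ^ 5 = -y := by
    rw [Odd.neg_pow (by decide), hy]
  rcases hi with ⟨rfl, rfl, rfl⟩ | ⟨rfl, rfl, rfl⟩ | ⟨rfl, rfl, rfl⟩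
  · refine ⟨!![1, 0, 0; 0, x, -y ^ 5; 0, y, x ^ 5], ?_, ?_, ?_, rfl, rfl⟩
    · rw [Matrix.det_fin_three]
      simp
      linear_combination h
    · ext p q
      rw [Matrix.mul_apply, Fin.sum_univ_three, ct_apply, ct_apply, ct_apply]
      fin_cases p <;> fin_cases q <;> simp [hx, hy, hy']
      · linear_combination h
      · ring
      · ring
      · linear_combination h
    · rw [Matrix.mulVec_single_one]
      ext p
      fin_cases p <;> rfl
  · refine ⟨!![x, 0, -y ^ 5; 0, 1, 0; y, 0, x ^ 5], ?_, ?_, ?_, rfl, rfl⟩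
    · rw [Matrix.det_fin_three]
      simp
      linear_combination h
    · ext p q
      rw [Matrix.mul_apply, Fin.sum_univ_three, ct_apply, ct_apply, ct_apply]
      fin_cases p <;> fin_cases q <;> simp [hx, hy, hy']
      · linear_combination h
      · ring
      · ring
      · linear_combination h
    · rw [Matrix.mulVec_single_one]
      ext p
      fin_cases p <;> rfl
  · refine ⟨!![x, -y ^ 5, 0; y, x ^ 5, 0; 0, 0, 1], ?_, ?_, ?_, rfl, rfl⟩
    · rw [Matrix.det_fin_three]
      simp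
      linear_combination h
    · ext p q
      rw [Matrix.mul_apply, Fin.sum_univ_three, ct_apply, ct_apply, ct_apply]
      fin_cases p <;> fin_cases q <;> simp [hx, hy, hy']
      · linear_combination h
      · ring
      · ring
      · linear_combination h
    · rw [Matrix.mulVec_single_one]
      ext p
      fin_cases p <;> rfl

end mat

theorem t_card : S_CARD := by
  classical
  intro k _ _ _ hk i
  obtain ⟨a, b, hi⟩ : ∃ a b : Fin 3, (i = 0 ∧ a = 1 ∧ b = 2) ∨ (i = 1 ∧ a = 0 ∧ b = 2) ∨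
      (i = 2 ∧ a = 0 ∧ b = 1) := by
    fin_cases i
    · exact ⟨1, 2, Or.inl ⟨rfl, rfl, rfl⟩⟩
    · exact ⟨0, 2, Or.inr (Or.inl ⟨rfl, rfl, rfl⟩)⟩
    · exact ⟨0, 1, Or.inr (Or.inr ⟨rfl, rfl, rfl⟩)⟩
  have hent : ∀ g : K k i, _ := fun g => entries hi (mt g.1.1) g.1.1.2 g.1.2 g.2
  let f : K k i → {p : k × k // p.1 ^ 6 + p.2 ^ 6 = 1} := fun g =>
    ⟨(mt g.1.1 a a, mt g.1.1 b a), (hent g).2.2.2⟩
  have hf : Function.Bijective f := by
    constructor
    · intro g g' hgg
      have h1 : mt g.1.1 a a = mt g'.1.1 a a := congrArg (fun p => p.1.1) hgg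
      have h2 : mt g.1.1 b a = mt g'.1.1 b a := congrArg (fun p => p.1.2) hgg
      obtain ⟨⟨e1, e2, e3, e4, e5⟩, e6, e7, -⟩ := hent g
      obtain ⟨⟨f1, f2, f3, f4, f5⟩, f6, f7, -⟩ := hent g'
      apply Subtype.ext
      apply Subtype.ext
      apply mt_inj
      have hab : mt g.1.1 a b = mt g'.1.1 a b := by rw [e6, f6, h2]
      have hbb : mt g.1.1 b b = mt g'.1.1 b b := by rw [e7, f7, h1]
      have hii : mt g.1.1 i i = mt g'.1.1 i i := by rw [e1, f1]
      have hai : mt g.1.1 a i = mt g'.1.1 a i := by rw [e2, f2]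
      have hbi : mt g.1.1 b i = mt g'.1.1 b i := by rw [e3, f3]
      have hia : mt g.1.1 i a = mt g'.1.1 i a := by rw [e4, f4]
      have hib : mt g.1.1 i b = mt g'.1.1 i b := by rw [e5, f5]
      rcases hi with ⟨rfl, rfl, rfl⟩ | ⟨rfl, rfl, rfl⟩ | ⟨rfl, rfl, rfl⟩
      all_goals
        ext p q
        fin_cases p <;> fin_cases q <;> assumption
    · rintro ⟨⟨x, y⟩, hxy⟩
      obtain ⟨A, hA1, hA2, hA3, hA4, hA5⟩ := exists_mat hk hi hxy
      refine ⟨⟨⟨⟨A, hA1⟩, hA2⟩, hA3⟩, ?_⟩
      apply Subtype.ext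
      exact Prod.ext hA4 hA5
  rw [Nat.card_congr (Equiv.ofBijective f hf), Nat.card_eq_fintype_card, Fintype.card_subtype]
  exact count hk

end Pool.Agent.N353.RK
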